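import Pool.Agent.H68.Pf5

set_option autoImplicit false

namespace Pool.Agent.Results.MP_6ba1da_al.NotLinear

open Pool.Agent.H68.Pf

/-- A countable para-free group (lower central factors isomorphic to those of the free group of
countably infinite rank, residually nilpotent) that embeds in no `GL_n(R)`, `R` commutative. -/
theorem result.{u} : ∃ (G : Type) (_ : Group G), Countable G ∧
    (∀ i : ℕ, Nonempty
      ((↥((⊤ : Subgroup G).lowerCentralSeries i) ⧸
          ((⊤ : Subgroup G).lowerCentralSeries (i + 1)).subgroupOf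
            ((⊤ : Subgroup G).lowerCentralSeries i)) ≃*
        (↥((⊤ : Subgroup (FreeGroup ℕ)).lowerCentralSeries i) ⧸
          ((⊤ : Subgroup (FreeGroup ℕ)).lowerCentralSeries (i + 1)).subgroupOf
            ((⊤ : Subgroup (FreeGroup ℕ)).lowerCentralSeries i)))) ∧
    (⨅ i : ℕ, (⊤ : Subgroup G).lowerCentralSeries i) = ⊥ ∧
    ∀ (R : Type u) [CommRing R] (n : ℕ) (f : G →* GL (Fin n) R), ¬ Function.Injective f := by
  refine ⟨G, inferInstance, inferInstance, gr_iso, resnil, fun R _ n f hf => ?_⟩
  exact nonlin n ((Units.coeHom _).comp f) (Units.val_injective.comp hf)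

end Pool.Agent.Results.MP_6ba1da_al.NotLinear
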